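import Mathlib

/-!
# Project MK: the Markov inequality fails for every cusp with irrational exponent

`X = {(x, y) : 0 ≤ x ≤ 1, x ^ s ≤ y ≤ x ^ s + x ^ p}` with irrational `s > 1` and `p > s`.

Polynomials `Q k` with `Q k (0) = 1`, `|Q k| ≤ 1` on `X`, `|Q k| ≤ δ k / (2 x)` for `x ≥ δ k`, are built by
`Q (k+1) (x, y) = Q k (x, y) ^ N * F (x / δ k, y / δ k ^ s)`, `δ (k+1) = ρ δ k`, where `F` is a fixed
polynomial with `F (x, x ^ s) = P (T ≤ log (1 / x))`, `T` a sum of independent exponential variables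
with rates `i + j s`. The degree grows by the factor `N + 1`, and `1 / ρ` is larger than every power of
`N + 1` for suitable choices of the rates (possible since the numbers `i + j s` get dense).
-/

set_option autoImplicit false

open Set MvPolynomial

noncomputable section

namespace Pool.Agent.Q88.MK

/-- Polynomials in two variables. -/
abbrev Pol := MvPolynomial (Fin 2) ℝ

/-- The value of `P` at the point `(x, y)`. -/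
def ev (P : Pol) (x y : ℝ) : ℝ := MvPolynomial.eval ![x, y] P

/-- The Euclidean norm of the gradient of `P` at the point `z`. -/
def gradNorm (P : Pol) (z : ℝ × ℝ) : ℝ :=
  Real.sqrt (ev (MvPolynomial.pderiv 0 P) z.1 z.2 ^ 2 + ev (MvPolynomial.pderiv 1 P) z.1 z.2 ^ 2)

/-- The cusp. -/
def cusp (s p : ℝ) : Set (ℝ × ℝ) :=
  {z | z.1 ∈ Icc (0 : ℝ) 1 ∧ z.1 ^ s ≤ z.2 ∧ z.2 ≤ z.1 ^ s + z.1 ^ p}

/-- The Markov inequality for the compact set `K`. -/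
def Markov (K : Set (ℝ × ℝ)) : Prop :=
  ∃ C r : ℝ, 0 < C ∧ 0 < r ∧ ∀ P : Pol,
    sSup (gradNorm P '' K) ≤ C * (P.totalDegree : ℝ) ^ r * sSup ((fun z => |ev P z.1 z.2|) '' K)

/-- Membership in the cusp. -/
def InX (s p x y : ℝ) : Prop := 0 ≤ x ∧ x ≤ 1 ∧ x ^ s ≤ y ∧ y ≤ x ^ s + x ^ p

/-- A peaking polynomial of degree at most `n` and width `δ` exists. -/
def Good (s p δ : ℝ) (n : ℕ) : Prop :=
  ∃ Q : Pol, Q.totalDegree ≤ n ∧ ev Q 0 0 = 1 ∧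
    ∀ x y, InX s p x y → |ev Q x y| ≤ 1 ∧ (δ ≤ x → |ev Q x y| ≤ 1 / 2 * (δ / x))

/-- The local polynomial `F`. -/
def Loc (s p ρ : ℝ) (N D : ℕ) : Prop :=
  ∃ F : Pol, F.totalDegree ≤ D ∧ ev F 0 0 = 1 ∧
    (∀ x y : ℝ, 1 ≤ x → 0 ≤ y → y ≤ 2 * x ^ s → |ev F x y| ≤ ρ / 2 * 2 ^ N * x ^ (N - 1)) ∧
    ∃ κ₀ : ℝ, 0 < κ₀ ∧ ∀ κ : ℝ, 0 ≤ κ → κ ≤ κ₀ → ∀ x y : ℝ, 0 ≤ x → x ≤ 1 → x ^ s ≤ y →
      y ≤ x ^ s + κ * x ^ p → |ev F x y| ≤ 1 ∧ (ρ ≤ x → |ev F x y| ≤ 1 / 2 * (ρ / x))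

/-- Exponent of the monomial with the index pair `q` on the curve `y = x ^ s`. -/
def E (s : ℝ) (q : ℕ × ℕ) : ℝ := (q.1 : ℝ) + q.2 * s

/-- The sum on the curve. -/
def fs (s : ℝ) (S : Finset (ℕ × ℕ)) (a : ℕ × ℕ → ℝ) (x : ℝ) : ℝ := ∑ q ∈ S, a q * x ^ (E s q)

/-- The sum in the plane. -/
def Fs (S : Finset (ℕ × ℕ)) (a : ℕ × ℕ → ℝ) (x y : ℝ) : ℝ := ∑ q ∈ S, a q * x ^ q.1 * y ^ q.2

/-! ### Polynomials -/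

/-- **JOB SCL** (0.4 h), `theorem scl : S_scl`.
Take `G = ∑ m ∈ F.support, monomial m (coeff m F * u ^ m 0 * v ^ m 1)`. Its total degree is at most the
supremum of the degrees of the monomials (`MvPolynomial.totalDegree_finset_sum`,
`MvPolynomial.totalDegree_monomial_le` or similar, `MvPolynomial.le_totalDegree`). The values: `eval` of a
monomial is `coeff * x ^ m 0 * y ^ m 1` (`eval_monomial`, `Finsupp.prod_fintype`, `Fin.prod_univ_two`), and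
`F` is the sum of its monomials (`MvPolynomial.eval_eq'` or `as_sum`). (Or induction on `F` with
`MvPolynomial.bind₁`.) -/
def S_scl : Prop :=
  ∀ (F : Pol) (u v : ℝ), ∃ G : Pol, G.totalDegree ≤ F.totalDegree ∧
    ∀ x y : ℝ, ev G x y = ev F (u * x) (v * y)

/-- **JOB DER** (0.4 h), `theorem der : S_der`.
`MvPolynomial.induction_on P`: constants (`pderiv_C`), sums (`map_add`, `HasDerivAt.add`), products with a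
variable (`MvPolynomial.pderiv_mul` (Leibniz), `pderiv_X`, `HasDerivAt.mul`; `Fin.forall_fin_two` for the two
variables). -/
def S_der : Prop :=
  ∀ (P : Pol) (g h : ℝ → ℝ) (g' h' t : ℝ), HasDerivAt g g' t → HasDerivAt h h' t →
    HasDerivAt (fun t => ev P (g t) (h t))
      (ev (MvPolynomial.pderiv 0 P) (g t) (h t) * g' +
        ev (MvPolynomial.pderiv 1 P) (g t) (h t) * h') t

/-- **JOB MVT** (0.5 h), `theorem mvt (h : S_der) : S_mvt`.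
`φ t = ev P t (t ^ s)` has derivative `∂₀ + ∂₁ * (s * t ^ (s - 1))` (`Real.hasDerivAt_rpow_const` with
`Or.inr`, `s ≥ 1`), and for `t ∈ [0, 1]` this is at most `G + s G` in absolute value (each partial
derivative is at most the square root of the sum of the squares, `0 ≤ t ^ (s-1) ≤ 1`). So
`|φ δ - φ 0| ≤ (1 + s) G δ` (`Convex.norm_image_sub_le_of_norm_hasDerivWithin_le` or
`norm_image_sub_le_of_norm_deriv_le_segment'`), `φ 0 = ev P 0 0 = 1` (`Real.zero_rpow`), and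
`|φ δ| ≤ 1/2`. -/
def S_mvt : Prop :=
  ∀ (s : ℝ) (P : Pol) (G δ : ℝ), 1 < s → 0 < δ → δ ≤ 1 → ev P 0 0 = 1 →
    |ev P δ (δ ^ s)| ≤ 1 / 2 → (∀ t ∈ Icc (0 : ℝ) δ, gradNorm P (t, t ^ s) ≤ G) →
    1 / 2 ≤ (1 + s) * G * δ

/-- **JOB BDD** (0.3 h), `theorem bdd : S_bdd`.
`cusp s p` is contained in the compact set `Icc 0 1 ×ˢ Icc 0 2` (for `x ∈ [0, 1]`, `0 ≤ x ^ s`,
`x ^ s ≤ 1`, `x ^ p ≤ 1`), and `z ↦ gradNorm P z` and `z ↦ |ev P z.1 z.2|` are continuous (evaluation of a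
polynomial at a continuous vector: `MvPolynomial.continuous_eval` composed with the continuous map
`z ↦ ![z.1, z.2]`). `IsCompact.bddAbove_image` and `BddAbove.mono`. -/
def S_bdd : Prop :=
  ∀ (s p : ℝ) (P : Pol), 1 < s → s < p →
    BddAbove (gradNorm P '' cusp s p) ∧ BddAbove ((fun z : ℝ × ℝ => |ev P z.1 z.2|) '' cusp s p)

/-! ### The recursion -/

/-- **JOB STA** (0.4 h), `theorem sta : S_sta`.
`M = ⌈1/δ⌉₊`, `Q = (1 - X 0) ^ M` (degree at most `M`: `totalDegree_pow`, `totalDegree_sub`), value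
`(1 - x) ^ M`. For `x ∈ [0, 1]` it is in `[0, 1]`. For `x ≥ δ`: `(1 - x) ^ M ≤ exp (- M x)`
(`Real.one_sub_le_exp_neg` or `Real.add_one_le_exp`), and `M x * exp (- M x) ≤ 1 / 2`
(as `2 u ≤ exp u` for all real `u`: `exp u ≥ e u`, or `exp (u / 2) ≥ 1 + u/2` squared gives
`exp u ≥ (1 + u/2)^2 ≥ 2 u`), so `x (1 - x) ^ M ≤ 1 / (2 M) ≤ δ / 2`. -/
def S_sta : Prop := ∀ s p δ : ℝ, 1 < s → s < p → 0 < δ → δ ≤ 1 → Good s p δ ⌈1 / δ⌉₊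

/-- **JOB STE** (1.0 h), `theorem ste (h : S_scl) : S_ste`.
`δ₀ = min 1 (κ₀ ^ (1 / (p - s)))`, so `δ ^ (p - s) ≤ κ₀` for `δ ≤ δ₀`. Given `Q` for `δ`, put
`Q' = Q ^ N * G`, `G` the polynomial of `S_scl` with `ev G x y = ev F (x / δ) (y / δ ^ s)`; degree at most
`N n + D`, value `1` at the origin. Let `(x, y) ∈ X`, `x' = x / δ`, `y' = y / δ ^ s`,
`κ = δ ^ (p - s)`; then `x' ^ s ≤ y' ≤ x' ^ s + κ x' ^ p` (`Real.div_rpow`, `Real.rpow_sub`).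
If `x ≤ δ`: `|Q| ^ N ≤ 1` and `|F (x', y')| ≤ 1`, and if `ρ δ ≤ x` then `ρ ≤ x'`, so
`|F (x', y')| ≤ 1/2 * (ρ / x') = 1/2 * (ρ δ / x)`.
If `δ ≤ x`: `x' ≥ 1`, `0 ≤ y' ≤ x' ^ s + κ x' ^ p ≤ 2 x' ^ s`, because
`κ x' ^ (p - s) = x ^ (p - s) ≤ 1`; so `|F (x', y')| ≤ ρ/2 * 2 ^ N * x' ^ (N-1)`, and
`|Q| ^ N ≤ (1/2 * (δ / x)) ^ N = (1/2) ^ N * (1 / x') ^ N`; the product is at most
`ρ/2 * (1/x') = 1/2 * (ρ δ / x)`, which is at most `1`. -/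
def S_ste : Prop :=
  ∀ (s p ρ : ℝ) (N D : ℕ), 1 < s → s < p → 0 < ρ → ρ ≤ 1 → 1 ≤ N → Loc s p ρ N D →
    ∃ δ₀ : ℝ, 0 < δ₀ ∧ δ₀ ≤ 1 ∧ ∀ δ : ℝ, 0 < δ → δ ≤ δ₀ → ∀ n : ℕ,
      Good s p δ n → Good s p (ρ * δ) (N * n + D)

/-- **JOB CHA** (0.3 h), `theorem cha (h : S_sta) (h1 : S_ste) : S_cha`.
`δ₀` from `S_ste`, `M = ⌈1/δ₀⌉₊ + D`. Induction on `k`, `Good s p (δ₀ * ρ ^ k) (M * (N + 1) ^ k)`: start
`S_sta` (`Good` is monotone in `n`); step: `N * (M (N+1)^k) + D ≤ M (N+1)^(k+1)` since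
`D ≤ M ≤ M (N+1)^k`, and `δ₀ ρ^k ≤ δ₀`. -/
def S_cha : Prop :=
  ∀ (s p ρ : ℝ) (N D : ℕ), 1 < s → s < p → 0 < ρ → ρ ≤ 1 → 1 ≤ N → Loc s p ρ N D →
    ∃ (δ₀ : ℝ) (M : ℕ), 0 < δ₀ ∧ δ₀ ≤ 1 ∧ ∀ k : ℕ, Good s p (δ₀ * ρ ^ k) (M * (N + 1) ^ k)

/-- **JOB FIN** (0.8 h), `theorem fin (h : S_mvt) (h1 : S_bdd) (h2 : S_cha) : S_fin`.
Let `C, r` be the constants of the Markov inequality, `R = ⌈r⌉₊ + 1`, and `ρ, N, D` for `R`; `δ₀, M` from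
`S_cha`, and `Q = Q k` of degree at most `n = M (N+1)^k`, `δ = δ₀ ρ^k`. On `X` one has `|Q| ≤ 1`, so the
supremum of `|Q|` is at most `1` (`csSup_le'` or `csSup_le`, the set is nonempty: `(0, 0) ∈ X`,
`Real.zero_rpow`), and it is nonnegative; `totalDegree ≤ n` and with `n' = max n 1`
`(totalDegree : ℝ) ^ r ≤ (n' : ℝ) ^ r ≤ (n' : ℝ) ^ R` (`Real.rpow_le_rpow`, `Real.rpow_le_rpow_of_exponent_le`,
`Real.rpow_natCast`). The points `(t, t ^ s)`, `t ∈ [0, 1]`, are in `X`, so `gradNorm Q (t, t^s) ≤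
G := C * n'^R` (`le_csSup` with `S_bdd`). `S_mvt` with `δ` (`|ev Q δ (δ^s)| ≤ 1/2 * (δ/δ)`) gives
`1/2 ≤ (1 + s) C n'^R δ₀ ρ^k ≤ (1 + s) C (max M 1)^R δ₀ * ((N+1)^R ρ)^k` for all `k`, which tends to `0`:
contradiction (`tendsto_pow_atTop_nhds_zero_of_lt_one`). -/
def S_fin : Prop :=
  ∀ s p : ℝ, 1 < s → s < p →
    (∀ R : ℕ, ∃ (ρ : ℝ) (N D : ℕ), 0 < ρ ∧ ρ < 1 ∧ 1 ≤ N ∧ ((N : ℝ) + 1) ^ R * ρ < 1 ∧
      Loc s p ρ N D) → ¬ Markov (cusp s p)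

/-! ### The local polynomial -/

/-- **JOB POL** (0.3 h), `theorem pol : S_pol`.
`F = ∑ q ∈ S, C (a q) * X 0 ^ q.1 * X 1 ^ q.2`; `totalDegree_finset_sum`, `totalDegree_mul`,
`totalDegree_X_pow`, `totalDegree_C`; evaluation by `simp`. -/
def S_pol : Prop :=
  ∀ (S : Finset (ℕ × ℕ)) (a : ℕ × ℕ → ℝ) (m : ℕ), (∀ q ∈ S, q.1 + q.2 ≤ m) →
    ∃ F : Pol, F.totalDegree ≤ m ∧ ∀ x y : ℝ, ev F x y = Fs S a x y

/-- The coefficients after one more exponential variable with rate `ν`, index `q₀`. -/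
def op (s : ℝ) (S : Finset (ℕ × ℕ)) (a : ℕ × ℕ → ℝ) (ν : ℝ) (q₀ : ℕ × ℕ) (q : ℕ × ℕ) : ℝ :=
  if q = q₀ then -∑ r ∈ S, a r * (ν / (ν - E s r)) else a q * (ν / (ν - E s q))

/-- **JOB OPR** (0.9 h), `theorem opr : S_opr`.
Write `g = fs s S a`, `h = fs s (insert q₀ S) (op s S a ν q₀)`; then
`h x = ∑ q ∈ S, a q * (ν / (ν - E q)) * (x ^ E q - x ^ ν)`. Put `φ x = x ^ (-ν) * h x =
∑ a q * (ν / (ν - E q)) * (x ^ (E q - ν) - 1)` for `x > 0`. Then `φ 1 = 0` and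
`φ' x = - ν * ∑ a q * x ^ (E q - ν - 1) = - ν * g x * x ^ (-ν-1)`.
(a) `φ' ≤ 0` on `(0, 1]`, so `φ x ≥ φ 1 = 0`, `h ≥ 0`.
(b) `ψ x = φ x - (x ^ (-ν) - 1)` has derivative `ν (1 - g x) x ^ (-ν-1) ≥ 0`, `ψ 1 = 0`, so `ψ x ≤ 0`,
that is `h x ≤ 1 - x ^ ν`.
(c) `χ x = φ x - B ν / (ν+1) * (x ^ (-ν-1) - 1)` has derivative `ν x ^ (-ν-2) (B - g x * x) ≥ 0`,
`χ 1 = 0`, so `h x ≤ B ν/(ν+1) * (x⁻¹ - x ^ ν) ≤ B ν/(ν+1) * x⁻¹` (`B ≥ 0` from `x = 1`).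
(Monotonicity on `Icc x 1` from the sign of the derivative: `antitoneOn_of_deriv_nonpos`,
`monotoneOn_of_deriv_nonneg`.) -/
def S_opr : Prop :=
  ∀ (s : ℝ) (S : Finset (ℕ × ℕ)) (a : ℕ × ℕ → ℝ) (ν B : ℝ) (q₀ : ℕ × ℕ), 0 < ν → E s q₀ = ν →
    q₀ ∉ S → (∀ q ∈ S, E s q ≠ ν) →
    (∀ x : ℝ, 0 < x → x ≤ 1 → 0 ≤ fs s S a x ∧ fs s S a x ≤ 1 ∧ fs s S a x * x ≤ B) →
    ∀ x : ℝ, 0 < x → x ≤ 1 → 0 ≤ fs s (insert q₀ S) (op s S a ν q₀) x ∧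
      fs s (insert q₀ S) (op s S a ν q₀) x ≤ 1 - x ^ ν ∧
      fs s (insert q₀ S) (op s S a ν q₀) x * x ≤ B * (ν / (ν + 1))

/-- **JOB SUM** (0.3 h), `theorem sum1 : S_sum`.
`|op| ` at `q₀` is at most `∑ |a r| * (m / sep)`, and at `q ∈ S` (`q ≠ q₀`) it is at most
`|a q| * (m / sep)`, as `|ν / (ν - E q)| ≤ m / sep`. -/
def S_sum : Prop :=
  ∀ (s : ℝ) (S : Finset (ℕ × ℕ)) (a : ℕ × ℕ → ℝ) (ν m sep : ℝ) (q₀ : ℕ × ℕ), 0 < ν → ν ≤ m →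
    0 < sep → q₀ ∉ S → (∀ q ∈ S, sep ≤ |ν - E s q|) →
    ∑ q ∈ insert q₀ S, |op s S a ν q₀ q| ≤ 2 * m / sep * ∑ q ∈ S, |a q|

/-- **JOB MZ** (0.7 h), `theorem mz (h : S_opr) (h1 : S_sum) : S_mz`.
Induction on `T` (`Finset.induction_on`). `T = ∅`: `a = fun _ => 1`, the sum is `x ^ 0 = 1`.
Step `insert q₀ T`: apply `S_opr`, `S_sum` to `S = insert (0, 0) T`, `ν = E s q₀`, the `a` of `T`, and
`B = ∏ q ∈ T, E q / (E q + 1)`; `q₀ ≠ (0, 0)` since `E s q₀ ≥ sep > 0`; `|ν - E q| ≥ sep` for `q ∈ T`,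
and `|ν - E (0,0)| = ν ≥ sep`. The new coefficient at `(0, 0)` is `1 * (ν / (ν - 0)) = 1`;
`insert (0,0) (insert q₀ T) = insert q₀ (insert (0,0) T)` (`Finset.insert_comm`). -/
def S_mz : Prop :=
  ∀ (s : ℝ) (T : Finset (ℕ × ℕ)) (m sep : ℝ), 0 < sep → sep ≤ m →
    (∀ q ∈ T, sep ≤ E s q ∧ E s q ≤ m) → (∀ q ∈ T, ∀ r ∈ T, q ≠ r → sep ≤ |E s q - E s r|) →
    ∃ a : ℕ × ℕ → ℝ, a (0, 0) = 1 ∧
      ∑ q ∈ insert (0, 0) T, |a q| ≤ (2 * m / sep) ^ T.card ∧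
      ∀ x : ℝ, 0 < x → x ≤ 1 → 0 ≤ fs s (insert (0, 0) T) a x ∧
        fs s (insert (0, 0) T) a x ≤ 1 ∧
        fs s (insert (0, 0) T) a x * x ≤ ∏ q ∈ T, (E s q / (E s q + 1))

/-- **JOB MO** (0.5 h), `theorem mo (h : S_opr) (h1 : S_sum) (h2 : S_mz) : S_mo`.
Take `a` from `S_mz` (its hypothesis `sep ≤ E s q` from `sep ≤ 1 ≤ 2`) and apply `S_opr`, `S_sum` with
`S = insert (0, 0) T`, `q₀ = (1, 0)`, `ν = 1` (`E s (1,0) = 1`): `|1 - E q| ≥ 1 ≥ sep` for `q ∈ T`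
(`E q ≥ 2`) and for `(0, 0)`. `B * (1/2) ≤ B`. The new coefficient at `(0, 0)` is `1`. -/
def S_mo : Prop :=
  ∀ (s : ℝ) (T : Finset (ℕ × ℕ)) (m sep : ℝ), 0 < sep → sep ≤ 1 → 2 ≤ m →
    (∀ q ∈ T, 2 ≤ E s q ∧ E s q ≤ m) → (∀ q ∈ T, ∀ r ∈ T, q ≠ r → sep ≤ |E s q - E s r|) →
    ∃ a : ℕ × ℕ → ℝ, a (0, 0) = 1 ∧
      ∑ q ∈ insert (1, 0) (insert (0, 0) T), |a q| ≤ (2 * m / sep) ^ (T.card + 1) ∧
      ∀ x : ℝ, 0 < x → x ≤ 1 → 0 ≤ fs s (insert (1, 0) (insert (0, 0) T)) a x ∧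
        fs s (insert (1, 0) (insert (0, 0) T)) a x ≤ 1 - x ∧
        fs s (insert (1, 0) (insert (0, 0) T)) a x * x ≤ ∏ q ∈ T, (E s q / (E s q + 1))

/-- **JOB THK** (0.5 h), `theorem thk : S_thk`.
Termwise: `x ^ (E s q) = x ^ q.1 * (x ^ s) ^ q.2` (`Real.rpow_add`, `Real.rpow_natCast`, `Real.rpow_mul`,
`x > 0`), `0 ≤ x ^ q.1 ≤ 1`. With `u = x ^ s ∈ [0, 1]`: `u ≤ y ≤ u + κ x^p ≤ 2 u ≤ 2`, and
`|y ^ j - u ^ j| ≤ j * 2 ^ j * |y - u|` for `u, y ∈ [0, 2]` (induction on `j`, or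
`Commute.geom_sum₂`), `j ≤ m`. -/
def S_thk : Prop :=
  ∀ (s p κ x y : ℝ) (S : Finset (ℕ × ℕ)) (a : ℕ × ℕ → ℝ) (m : ℕ), 1 < s → s < p → 0 ≤ κ → κ ≤ 1 →
    0 < x → x ≤ 1 → x ^ s ≤ y → y ≤ x ^ s + κ * x ^ p → (∀ q ∈ S, q.1 + q.2 ≤ m) →
    |Fs S a x y - fs s S a x| ≤ (∑ q ∈ S, |a q|) * (m * 2 ^ m) * (κ * x ^ p)

/-- **JOB GRW** (0.4 h), `theorem grw : S_grw`.
Termwise: `x ^ q.1 * y ^ q.2 ≤ x ^ q.1 * (2 x ^ s) ^ q.2 = 2 ^ q.2 * x ^ (E s q) ≤ 2 ^ m * x ^ m`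
(real powers, `Real.rpow_le_rpow_of_exponent_le`, `x ≥ 1`). -/
def S_grw : Prop :=
  ∀ (s x y : ℝ) (S : Finset (ℕ × ℕ)) (a : ℕ × ℕ → ℝ) (m : ℕ), 1 < s → 1 ≤ x → 0 ≤ y →
    y ≤ 2 * x ^ s → (∀ q ∈ S, q.2 ≤ m ∧ E s q ≤ m) →
    |Fs S a x y| ≤ (∑ q ∈ S, |a q|) * 2 ^ m * x ^ m

/-- **JOB LOC** (0.9 h), `theorem loc (h : S_pol) (h1 : S_mo) (h2 : S_thk) (h3 : S_grw) : S_loc`.
`S = insert (1,0) (insert (0,0) T)`, `a` from `S_mo`, `F` from `S_pol`; for `q ∈ S`: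
`q.1 + q.2 ≤ E s q ≤ m` (as `s > 1`; `E (1,0) = 1 ≤ m`), an inequality of natural numbers after a cast.
`ev F 0 0 = a (0,0) = 1` (all other terms vanish: `0 ^ i * 0 ^ j`). Put `A = ∑ |a q| ≤
(2 m / sep) ^ (card + 1)`, `c = A * (m 2^m)`. Growth: `S_grw` and `A 2^m ≤ ρ/2 * 2^N`,
`x ^ m ≤ x ^ (N-1)`. `κ₀ = min 1 (ρ / (4 (c + 1)))`, so `c κ ≤ ρ / 4 ≤ 1/4`. For `x = 0`: `y = 0`
(`Real.zero_rpow`), value `1`, and `ρ ≤ 0` is impossible. For `0 < x ≤ 1`, with `f = fs s S a x`: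
`|F - f| ≤ c κ x^p ≤ (ρ/4) x` (`x ^ p ≤ x`), so `F ≤ 1 - x + x / 4 ≤ 1`, `F ≥ - 1`; and if `ρ ≤ x`:
`|F| ≤ f + ρ/4 * x ≤ (∏ ..) / x + ρ/4 ≤ ρ / (4 x) + ρ / (4 x)`. -/
def S_loc : Prop :=
  ∀ (s p ρ sep : ℝ) (T : Finset (ℕ × ℕ)) (m N : ℕ), 1 < s → s < p → 0 < sep → sep ≤ 1 → 2 ≤ m →
    0 < ρ → ρ ≤ 1 → (∀ q ∈ T, 2 ≤ E s q ∧ E s q ≤ m) →
    (∀ q ∈ T, ∀ r ∈ T, q ≠ r → sep ≤ |E s q - E s r|) →
    4 * ∏ q ∈ T, (E s q / (E s q + 1)) ≤ ρ →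
    2 * (2 * m / sep) ^ (T.card + 1) * 2 ^ m ≤ ρ * 2 ^ N → m + 1 ≤ N → Loc s p ρ N m

/-! ### The choice of the exponents -/

/-- **JOB DEN** (1.0 h), `theorem den : S_den`.
There are integers `u, v` with `0 < e < 1 / (2 b)`, `e = u + v s` (the subgroup of `ℝ` generated by `1`
and `s` is dense: `dense_addSubgroupClosure_pair_iff` or `AddSubgroup.dense_or_cyclic`, or Dirichlet's
theorem `Real.exists_int_int_abs_mul_sub_le` with irrationality for `e ≠ 0`, changing signs). `v ≠ 0`.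
Let `L = ⌈1/e⌉₊`, so `L e ≥ 1`. Let `y = k / b` and `c = L |v| s + L |u| + 1`, `k₀ ≥ b c` (so `y ≥ c`).
Case `v > 0`: `n = ⌊y⌋`, `t` the least natural number with `t e > y - n` (`t ≤ L` or `t ≤ L + 1`;
take `L` with `L e > 1`): `n + t e ∈ (y, y + e]`, so it is `< y + 1/(2b)`; `i = n + t u ≥ 0`,
`j = t v ≥ 0`. Case `v < 0`: `n = ⌊y - L |v| s⌋ ≥ 0`, `t` least with
`n + L |v| s + t e > y` (`t ≤ L`); `i = n + t u ≥ 0` (here `u > 0`), `j = |v| (L - t) ≥ 0`.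
(`(k + 1/2) / b = k / b + 1 / (2 b)`.) -/
def S_den : Prop :=
  ∀ (s : ℝ) (b : ℕ), Irrational s → 1 < s → 1 ≤ b → ∃ k₀ : ℕ, ∀ k : ℕ, k₀ ≤ k →
    ∃ i j : ℕ, (k : ℝ) / b < (i : ℝ) + j * s ∧ (i : ℝ) + j * s < ((k : ℝ) + 1 / 2) / b

/-- **JOB TEL** (0.3 h), `theorem tel : S_tel`.
Induction on `K ≥ k₀` (`Nat.le_induction`, `Finset.prod_Ico_succ_top`). Step:
`(K+1)/(K+1+b) ≤ ((K+b)/(K+1+b)) ^ b` is Bernoulli's inequality `1 + b a ≤ (1 + a) ^ b`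
(`one_add_mul_le_pow`) with `a = - 1 / (K+1+b)`. -/
def S_tel : Prop :=
  ∀ b k₀ K : ℕ, 1 ≤ b → k₀ ≤ K →
    ∏ k ∈ Finset.Ico k₀ K, (((k : ℝ) + 1) / ((k : ℝ) + 1 + b)) ≤
      (((k₀ : ℝ) + b) / ((K : ℝ) + b)) ^ b

/-- **JOB SET** (0.8 h), `theorem set1 (h : S_den) (h1 : S_tel) : S_set`.
`k₀ = max (k₀ of S_den) (2 b)`. Choose for `k ≥ k₀` a pair `q k = (i, j)` with
`k / b < E s (q k) < (k + 1/2) / b`; `T` is the image of `Finset.Ico k₀ K` under `q`. For `k < l` one has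
`E (q l) - E (q k) > l / b - (k + 1/2) / b ≥ 1 / (2 b)`, so `q` is injective on it and the elements are
separated. `E ≥ k₀ / b ≥ 2`, `E < (K - 1/2) / b ≤ K`. `T.card ≤ K`. The product:
`E / (E + 1) = 1 - 1 / (E+1) ≤ (k+1) / (k+1+b)` as `E ≤ (k+1) / b` (`x / (x+1)` is increasing), and
`Finset.prod_image`, `Finset.prod_le_prod`, `S_tel`. -/
def S_set : Prop :=
  ∀ (s : ℝ) (b : ℕ), Irrational s → 1 < s → 1 ≤ b → ∃ k₀ : ℕ, ∀ K : ℕ, k₀ ≤ K →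
    ∃ T : Finset (ℕ × ℕ), T.card ≤ K ∧ (∀ q ∈ T, 2 ≤ E s q ∧ E s q ≤ K) ∧
      (∀ q ∈ T, ∀ r ∈ T, q ≠ r → 1 / (2 * (b : ℝ)) ≤ |E s q - E s r|) ∧
      ∏ q ∈ T, (E s q / (E s q + 1)) ≤ (((k₀ : ℝ) + b) / ((K : ℝ) + b)) ^ b

/-- **JOB CHO** (1.0 h), `theorem cho (h : S_set) (h1 : S_loc) : S_cho`.
`b = 2 R + 1`, `k₀` from `S_set`, `K` large (`K ≥ k₀`, `K ≥ 2`), `T` from `S_set`, `sep = 1 / (2 b)`, `m = K`,
`ρ = 4 * ((k₀ + b) / (K + b)) ^ b`, `N = 4 b K (K+1) + K + (K + b) b + 1`. Then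
`(2 m / sep) ^ (card + 1) = (4 b K) ^ (card+1) ≤ (4 b K) ^ (K+1) ≤ 2 ^ (4 b K (K+1))` (`n ≤ 2 ^ n`),
`ρ ≥ 4 / (K+b) ^ b ≥ 4 / 2 ^ ((K+b) b)`, so `2 * (2 m / sep) ^ (card+1) * 2 ^ m ≤ ρ * 2 ^ N`. And
`N + 1 ≤ c K ^ 2` with `c = 9 b + b ^ 2 + 3`, so `(N+1) ^ R * ρ ≤ c ^ R K ^ (2R) * 4 (k₀+b)^b / K^b =
4 c^R (k₀+b)^b / K`, less than `1` for `K` large; then `ρ < 1` as `(N+1)^R ≥ 1`. -/
def S_cho : Prop :=
  ∀ s p : ℝ, Irrational s → 1 < s → s < p → ∀ R : ℕ,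
    ∃ (ρ : ℝ) (N D : ℕ), 0 < ρ ∧ ρ < 1 ∧ 1 ≤ N ∧ ((N : ℝ) + 1) ^ R * ρ < 1 ∧ Loc s p ρ N D

/-- Assembly. -/
theorem assemble (hfin : S_fin) (hcho : S_cho) (s p : ℝ) (hs : Irrational s) (h1 : 1 < s)
    (hp : s < p) : ¬ Markov (cusp s p) :=
  hfin s p h1 hp (fun R => hcho s p hs h1 hp R)

end Pool.Agent.Q88.MK
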